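import Mathlib

/-!
Third-order max-type rational equation
`x_{n+1} = max {A, x_n, x_{n-1}} / x_{n-2}`, `A > 0`.

We show that a positive solution which has a real limit is constant.
The index is shifted by two: `x n` below stands for `x_{n-2}`.

For `A ≤ 1` we use the invariant
`I(x,y,z) = max(1,1/x) max(1,1/y) max(1,1/z) max(A,x,y,z)`,
which has a strict global minimum at the equilibrium `(1,1,1)`.
For `A > 1` a solution converging to `√A` eventually satisfies
`x_{n+3} x_n = A`, so it is eventually 6-periodic, hence eventually constant,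
and the equation can be solved backwards.
-/

open Filter Topology

namespace Pool.Agent.Results.MP_d408b2_an.NoLimit

/-- The invariant. -/
noncomputable def inv (A x y z : ℝ) : ℝ :=
  max 1 (1 / x) * max 1 (1 / y) * max 1 (1 / z) * max (max A x) (max y z)

lemma inv_step {A x y z : ℝ} (hA : 0 < A) :
    inv A y z (max A (max z y) / x) = inv A x y z := by
  unfold inv
  set M : ℝ := max A (max z y) with hM
  have hMpos : 0 < M := lt_of_lt_of_le hA (le_max_left _ _)
  have e1 : max (max A y) (max z (M / x)) = max M (M / x) := by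
    rw [hM]
    simp only [max_assoc, max_comm, max_left_comm]
  have e2 : max (max A x) (max y z) = max M x := by
    rw [hM]
    simp only [max_comm, max_left_comm]
  have e3 : max (1 : ℝ) (1 / (M / x)) * max M (M / x) = max 1 (1 / x) * max M x := by
    have a1 : max (1 : ℝ) (1 / (M / x)) = max M x / M := by
      rw [← max_div_div_right hMpos.le, div_self hMpos.ne', one_div_div]
    have a2 : max M (M / x) = M * max 1 (1 / x) := by
      rw [mul_max_of_nonneg _ _ hMpos.le]
      congr 1
      · ring
      · ring
    rw [a1, a2]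
    field_simp
  rw [e1, e2]
  calc max 1 (1 / y) * max 1 (1 / z) * max 1 (1 / (M / x)) * max M (M / x)
      = max 1 (1 / y) * max 1 (1 / z) * (max 1 (1 / (M / x)) * max M (M / x)) := by ring
    _ = max 1 (1 / y) * max 1 (1 / z) * (max 1 (1 / x) * max M x) := by rw [e3]
    _ = max 1 (1 / x) * max 1 (1 / y) * max 1 (1 / z) * max M x := by ring

/-- The invariant takes values at most `1` only at the point `(1,1,1)`. -/
lemma inv_le_one {A x y z : ℝ} (hx : 0 < x) (hy : 0 < y) (hz : 0 < z)
    (h : inv A x y z ≤ 1) : x = 1 ∧ y = 1 ∧ z = 1 := by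
  unfold inv at h
  set a := max (1 : ℝ) (1 / x) with ha
  set b := max (1 : ℝ) (1 / y) with hb
  set c := max (1 : ℝ) (1 / z) with hc
  set m := max (max A x) (max y z) with hm
  have ha1 : 1 ≤ a := le_max_left _ _
  have hb1 : 1 ≤ b := le_max_left _ _
  have hc1 : 1 ≤ c := le_max_left _ _
  have hax : 1 ≤ a * x := by
    have : 1 / x ≤ a := le_max_right _ _
    rwa [div_le_iff₀ hx] at this
  have hby : 1 ≤ b * y := by
    have : 1 / y ≤ b := le_max_right _ _
    rwa [div_le_iff₀ hy] at this
  have hcz : 1 ≤ c * z := by
    have : 1 / z ≤ c := le_max_right _ _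
    rwa [div_le_iff₀ hz] at this
  have hmx : x ≤ m := le_trans (le_max_right _ _) (le_max_left _ _)
  have hmy : y ≤ m := le_trans (le_max_left _ _) (le_max_right _ _)
  have hmz : z ≤ m := le_trans (le_max_right _ _) (le_max_right _ _)
  have hmpos : 0 < m := lt_of_lt_of_le hx hmx
  have ham : 1 ≤ a * m := le_trans hax (by nlinarith)
  have hbm : 1 ≤ b * m := le_trans hby (by nlinarith)
  have hcm : 1 ≤ c * m := le_trans hcz (by nlinarith)
  -- a b c m ≤ 1 forces a = b = c = 1 and m ≤ 1
  have habcm : a * b * c * m ≤ 1 := h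
  have hc' : c = 1 := by
    -- (a*m) * (b*c) ≤ 1
    have h1 : (a * m) * (b * c) ≤ 1 := by nlinarith
    have h2 : 1 ≤ b * c := by nlinarith
    have h3 : b * c ≤ 1 := by nlinarith
    nlinarith
  have hb' : b = 1 := by
    have h1 : (a * m) * (b * c) ≤ 1 := by nlinarith
    have h3 : b * c ≤ 1 := by nlinarith
    nlinarith
  have ha' : a = 1 := by
    have h1 : (b * m) * (a * c) ≤ 1 := by nlinarith
    have h3 : a * c ≤ 1 := by nlinarith
    nlinarith
  rw [ha', hb', hc'] at habcm
  rw [ha'] at hax
  rw [hb'] at hby
  rw [hc'] at hcz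
  refine ⟨?_, ?_, ?_⟩ <;> linarith

/-- **Main theorem.**  For every `A > 0`, a positive solution of
`x_{n+1} = max {A, x_n, x_{n-1}} / x_{n-2}` that has a real limit is constant;
so no positive non-equilibrium solution has a limit. -/
theorem result (A : ℝ) (hA : 0 < A) (x : ℕ → ℝ) (hpos : ∀ n, 0 < x n)
    (hx : ∀ n, x (n + 3) = max A (max (x (n + 2)) (x (n + 1))) / x n)
    (hne : ¬ ∃ c : ℝ, ∀ n, x n = c) :
    ¬ ∃ l : ℝ, Tendsto x atTop (𝓝 l) := by
  rintro ⟨l, hl⟩
  apply hne
  -- shifted limits
  have hl1 : Tendsto (fun n => x (n + 1)) atTop (𝓝 l) := (tendsto_add_atTop_iff_nat 1).2 hl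
  have hl2 : Tendsto (fun n => x (n + 2)) atTop (𝓝 l) := (tendsto_add_atTop_iff_nat 2).2 hl
  have hl3 : Tendsto (fun n => x (n + 3)) atTop (𝓝 l) := (tendsto_add_atTop_iff_nat 3).2 hl
  have hmul : ∀ n, x (n + 3) * x n = max A (max (x (n + 2)) (x (n + 1))) := by
    intro n
    rw [hx n, div_mul_cancel₀ _ (hpos n).ne']
  have hlim : l * l = max A (max l l) := by
    have t1 : Tendsto (fun n => x (n + 3) * x n) atTop (𝓝 (l * l)) := hl3.mul hl
    have t2 : Tendsto (fun n => max A (max (x (n + 2)) (x (n + 1)))) atTop
        (𝓝 (max A (max l l))) := tendsto_const_nhds.max (hl2.max hl1)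
    exact tendsto_nhds_unique t1 (t2.congr (fun n => (hmul n).symm))
  rw [max_self] at hlim
  have hl0 : 0 ≤ l := ge_of_tendsto' hl (fun n => (hpos n).le)
  have hlpos : 0 < l := by
    rcases hl0.lt_or_eq with h | h
    · exact h
    · exfalso
      rw [← h] at hlim
      have : A ≤ max A 0 := le_max_left _ _
      linarith
  rcases le_or_gt A 1 with hA1 | hA1
  · -- case A ≤ 1
    have hl1' : l = 1 := by
      rcases le_total A l with h | h
      · rw [max_eq_right h] at hlim
        have : l * (l - 1) = 0 := by linarith
        rcases mul_eq_zero.1 this with h' | h'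
        · exact absurd h' hlpos.ne'
        · linarith
      · rw [max_eq_left h] at hlim
        nlinarith
    subst hl1'
    have hinv : ∀ n, inv A (x n) (x (n + 1)) (x (n + 2)) = inv A (x 0) (x 1) (x 2) := by
      intro n
      induction n with
      | zero => rfl
      | succ k ih =>
        have hs := inv_step (x := x k) (y := x (k + 1)) (z := x (k + 2)) hA
        rw [← hx k] at hs
        rw [← ih, ← hs]
    have hcont : Tendsto (fun n => inv A (x n) (x (n + 1)) (x (n + 2))) atTop
        (𝓝 (inv A 1 1 1)) := by
      unfold inv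
      have d0 : Tendsto (fun n => 1 / x n) atTop (𝓝 (1 / 1)) :=
        tendsto_const_nhds.div hl one_ne_zero
      have d1 : Tendsto (fun n => 1 / x (n + 1)) atTop (𝓝 (1 / 1)) :=
        tendsto_const_nhds.div hl1 one_ne_zero
      have d2 : Tendsto (fun n => 1 / x (n + 2)) atTop (𝓝 (1 / 1)) :=
        tendsto_const_nhds.div hl2 one_ne_zero
      exact (((tendsto_const_nhds.max d0).mul (tendsto_const_nhds.max d1)).mul
        (tendsto_const_nhds.max d2)).mul ((tendsto_const_nhds.max hl).max (hl1.max hl2))
    have hI1 : inv A 1 1 1 = 1 := by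
      unfold inv
      simp [hA1]
    have hI : inv A (x 0) (x 1) (x 2) = 1 := by
      rw [← hI1]
      refine tendsto_nhds_unique ?_ hcont
      simp only [hinv]
      exact tendsto_const_nhds
    refine ⟨1, fun n => ?_⟩
    exact (inv_le_one (hpos n) (hpos (n + 1)) (hpos (n + 2)) (by rw [hinv n, hI])).1
  · -- case A > 1
    have hlA : l < A := by
      rcases lt_or_ge l A with h | h
      · exact h
      · rw [max_eq_right h] at hlim
        have : l * (l - 1) = 0 := by linarith
        rcases mul_eq_zero.1 this with h' | h'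
        · exact absurd h' hlpos.ne'
        · linarith
    have hll : l * l = A := by rw [hlim, max_eq_left hlA.le]
    -- eventually below A
    obtain ⟨N, hN⟩ := eventually_atTop.1 (hl.eventually (gt_mem_nhds hlA))
    have hstep : ∀ n, N ≤ n → x (n + 3) * x n = A := by
      intro n hn
      rw [hmul n, max_eq_left]
      exact max_le (hN _ (by omega)).le (hN _ (by omega)).le
    have hper : ∀ n, N ≤ n → x (n + 6) = x n := by
      intro n hn
      have h1 := hstep n hn
      have h2 := hstep (n + 3) (by omega)
      have h3 : x (n + 3 + 3) = x (n + 6) := rfl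
      rw [h3] at h2
      have h4 : 0 < x (n + 3) := hpos _
      have h5 : x (n + 3) * (x (n + 6) - x n) = 0 := by linarith [mul_comm (x (n+6)) (x (n+3))]
      rcases mul_eq_zero.1 h5 with h' | h'
      · exact absurd h' h4.ne'
      · linarith
    have hperk : ∀ n, N ≤ n → ∀ k : ℕ, x (n + 6 * k) = x n := by
      intro n hn k
      induction k with
      | zero => rfl
      | succ k ih =>
        have : n + 6 * (k + 1) = (n + 6 * k) + 6 := by ring
        rw [this, hper _ (by omega), ih]
    have hevt : ∀ n, N ≤ n → x n = l := by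
      intro n hn
      have t : Tendsto (fun k : ℕ => x (n + 6 * k)) atTop (𝓝 l) := by
        apply hl.comp
        apply tendsto_atTop_mono (fun k : ℕ => (by omega : k ≤ n + 6 * k))
        exact tendsto_id
      have t' : Tendsto (fun _ : ℕ => x n) atTop (𝓝 l) := t.congr (fun k => hperk n hn k)
      exact tendsto_nhds_unique tendsto_const_nhds t'
    -- go backwards
    have hback : ∀ k : ℕ, ∀ n, N ≤ n + k → x n = l := by
      intro k
      induction k with
      | zero => intro n hn; exact hevt n hn
      | succ k ih =>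
        intro n hn
        have e1 : x (n + 1) = l := ih (n + 1) (by omega)
        have e2 : x (n + 2) = l := ih (n + 2) (by omega)
        have e3 : x (n + 3) = l := ih (n + 3) (by omega)
        have := hmul n
        rw [e1, e2, e3, max_self, max_eq_left hlA.le, ← hll] at this
        exact mul_left_cancel₀ hlpos.ne' this
    exact ⟨l, fun n => hback N n (by omega)⟩

end Pool.Agent.Results.MP_d408b2_an.NoLimit
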